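import Pool.Agent.H861.GL.Two
import Pool.Agent.H861.GL.Kcx

/-!
# The `g`-numbers of mod 2 homology spheres without missing faces of dimension larger than two

For `i ≤ 2` the sphere `K(i, d-1)` minimizes the number `g_j` among all mod 2 homology
`(d-1)`-spheres without missing faces of dimension larger than `i`, for all `j ≤ d/2`, except
possibly for `i = 2`, `d` even and `j = d/2`.
-/

set_option autoImplicit false

namespace Pool.Agent.Results.MP_94a3a7_co.MissingFacesAtMostTwo

open Finset Polynomial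

/-- simplicial complex with vertices among `0, ..., n-1`: a family of finsets containing the
empty set and closed under taking subsets -/
def IsComplex {n : ℕ} (K : Finset (Finset (Fin n))) : Prop :=
  ∅ ∈ K ∧ ∀ σ ∈ K, ∀ τ : Finset (Fin n), τ ⊆ σ → τ ∈ K

/-- the chain `c`, with coefficients modulo `2`, is supported on the faces of `K` with `j`
vertices -/
def SupportedOn {n : ℕ} (K : Finset (Finset (Fin n))) (j : ℕ) (c : Finset (Fin n) → ZMod 2) :
    Prop :=
  ∀ σ, c σ ≠ 0 → σ ∈ K ∧ σ.card = j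

/-- the boundary of a chain (the augmentation is included: the empty face has dimension `-1`) -/
def boundary {n : ℕ} (c : Finset (Fin n) → ZMod 2) (ρ : Finset (Fin n)) : ZMod 2 :=
  ∑ v ∈ ρᶜ, c (insert v ρ)

/-- the reduced mod `2` homology of `K` vanishes in dimension `j - 1` -/
def AcyclicAt {n : ℕ} (K : Finset (Finset (Fin n))) (j : ℕ) : Prop :=
  ∀ c : Finset (Fin n) → ZMod 2, SupportedOn K j c → (∀ ρ, boundary c ρ = 0) →
    ∃ b, SupportedOn K (j + 1) b ∧ ∀ ρ, c ρ = boundary b ρ

/-- the link of the face `σ` -/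
def link {n : ℕ} (K : Finset (Finset (Fin n))) (σ : Finset (Fin n)) : Finset (Finset (Fin n)) :=
  univ.filter (fun τ => Disjoint τ σ ∧ τ ∪ σ ∈ K)

/-- mod `2` homology spheres of dimension `d - 1`: the link of every face `σ` (also of the empty
face) has the reduced mod `2` homology of a sphere of dimension `d - 1 - |σ|` (the top homology
has exactly one nonzero class) -/
def IsHomologySphere {n : ℕ} (K : Finset (Finset (Fin n))) (d : ℕ) : Prop :=
  IsComplex K ∧ (∀ σ ∈ K, σ.card ≤ d) ∧
    (∀ σ ∈ K, ∀ j, j + σ.card ≠ d → AcyclicAt (link K σ) j) ∧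
    ∀ σ ∈ K, ∃ z : Finset (Fin n) → ZMod 2, z ≠ 0 ∧ SupportedOn (link K σ) (d - σ.card) z ∧
      (∀ ρ, boundary z ρ = 0) ∧
      ∀ z', SupportedOn (link K σ) (d - σ.card) z' → (∀ ρ, boundary z' ρ = 0) → z' = 0 ∨ z' = z

/-- missing faces (minimal non-faces) -/
def IsMissing {n : ℕ} (K : Finset (Finset (Fin n))) (τ : Finset (Fin n)) : Prop :=
  τ ∉ K ∧ ∀ ρ, ρ ⊂ τ → ρ ∈ K

/-- the class `S(i, d-1)` of mod `2` homology `(d-1)`-spheres whose missing faces all have
dimension at most `i`, i.e. at most `i + 1` vertices. (If `v < n` is not a vertex of `K`, then `{v}`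
is a missing face with one element; this does not matter.) -/
def InS {n : ℕ} (i d : ℕ) (K : Finset (Finset (Fin n))) : Prop :=
  IsHomologySphere K d ∧ ∀ τ, IsMissing K τ → τ.card ≤ i + 1

/-- the `h`-polynomial of a complex of dimension `d - 1`: `∑ f_(j-1) t^j (1 - t)^(d-j)` -/
noncomputable def hPoly {n : ℕ} (K : Finset (Finset (Fin n))) (d : ℕ) : ℤ[X] :=
  ∑ σ ∈ K, X ^ σ.card * (1 - X) ^ (d - σ.card)

/-- the `g`-numbers of a complex of dimension `d - 1`: `g_0 = 1`, `g_j = h_j - h_(j-1)` -/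
noncomputable def g {n : ℕ} (K : Finset (Finset (Fin n))) (d j : ℕ) : ℤ :=
  (hPoly K d).coeff j - (if j = 0 then 0 else (hPoly K d).coeff (j - 1))

/-- the sphere `K(i, d-1)`, `d = q i + r`: the join of `q` copies of the boundary of the `i`-simplex
and of the boundary of the `r`-simplex. The vertices are `0, ..., q (i + 1) + r`, they are divided
into the blocks of the vertices `v` with `v / (i + 1) = a`, `a = 0, ..., q` (the last block has
`r + 1` elements), and the faces are the sets that contain no block -/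
def minSphere (i q r : ℕ) : Finset (Finset (Fin (q * (i + 1) + (r + 1)))) :=
  univ.filter (fun σ => ∀ a ≤ q, ∃ v : Fin (q * (i + 1) + (r + 1)),
    (v : ℕ) / (i + 1) = a ∧ v ∉ σ)

theorem mf_of_missing {n i : ℕ} {K : Finset (Finset (Fin n))}
    (h : ∀ τ, IsMissing K τ → τ.card ≤ i + 1) : H861.GL.MF K i := by
  classical
  intro σ hσ
  by_contra hσK
  obtain ⟨τ, hτ, hmin⟩ := Finset.exists_minimal (s := σ.powerset.filter (fun ρ => ρ ∉ K))
    ⟨σ, mem_filter.2 ⟨mem_powerset_self σ, hσK⟩⟩
  rw [mem_filter, mem_powerset] at hτ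
  refine hτ.2 (hσ τ hτ.1 (h τ ⟨hτ.2, fun ρ hρ => ?_⟩))
  by_contra hρK
  have h1 := hmin (mem_filter.2 ⟨mem_powerset.2 (hρ.subset.trans hτ.1), hρK⟩) hρ.subset
  exact hρ.2 h1

theorem result {n : ℕ} (K : Finset (Finset (Fin n))) (i q r j : ℕ) (hr : 1 ≤ r) (hri : r ≤ i)
    (hi : i ≤ 2) (hK : InS i (q * i + r) K) (hj : 2 * j ≤ q * i + r)
    (hmid : i = 2 → 2 * j ≠ q * i + r) :
    g (minSphere i q r) (q * i + r) j ≤ g K (q * i + r) j := by
  have hH : Y131.KS.HSph K (q * i + r) := ⟨hK.1.1, hK.1.2.1, hK.1.2.2.1, hK.1.2.2.2⟩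
  have hMF : H861.GL.MF K i := mf_of_missing hK.2
  have hm : hPoly (minSphere i q r) (q * i + r) =
      (∑ s ∈ range (i + 1), (X : ℤ[X]) ^ s) ^ q * ∑ s ∈ range (r + 1), (X : ℤ[X]) ^ s :=
    H861.GL.hP_minSphere i q r hri
  have hg : g K (q * i + r) j = H861.GL.gco (H861.GL.hP K (q * i + r)) j := rfl
  have hg' : g (minSphere i q r) (q * i + r) j =
      H861.GL.gco (hPoly (minSphere i q r) (q * i + r)) j := rfl
  rw [hg, hg', hm]
  have hi' : i = 1 ∨ i = 2 := by omega
  rcases hi' with rfl | rfl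
  · have hr1 : r = 1 := by omega
    subst hr1
    have hf : H861.GL.Flag K := by
      intro F hF
      refine hMF F fun ρ hρ hρc => ?_
      have h2 : ρ.card = 0 ∨ ρ.card = 1 ∨ ρ.card = 2 := by omega
      rcases h2 with h2 | h2 | h2
      · rw [card_eq_zero.1 h2]
        exact hH.cx.1
      · obtain ⟨a, rfl⟩ := card_eq_one.1 h2
        have h3 := hF a (hρ (mem_singleton_self a)) a (hρ (mem_singleton_self a))
        rwa [pair_eq_singleton] at h3
      · obtain ⟨a, b, _, rfl⟩ := card_eq_two.1 h2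
        exact hF a (hρ (mem_insert_self _ _)) b (hρ (mem_insert_of_mem (mem_singleton_self _)))
    have e : (∑ s ∈ range (1 + 1), (X : ℤ[X]) ^ s) ^ q * ∑ s ∈ range (1 + 1), (X : ℤ[X]) ^ s =
        (1 + X) ^ (q * 1 + 1) := by
      rw [sum_range_succ, sum_range_succ, sum_range_zero, zero_add, pow_zero, pow_one, ← pow_succ,
        mul_one]
    rw [e, H861.GL.gco_one_add_X_pow]
    exact H861.GL.cross_ineq hH hf (by omega)
  · have e : (∑ s ∈ range (2 + 1), (X : ℤ[X]) ^ s) ^ q * ∑ s ∈ range (r + 1), (X : ℤ[X]) ^ s =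
        H861.GL.kap (q * 2 + r) := by
      have e0 : ∑ s ∈ range (2 + 1), (X : ℤ[X]) ^ s = 1 + X + X ^ 2 := by
        rw [sum_range_succ, sum_range_succ, sum_range_succ, sum_range_zero, zero_add, pow_zero,
          pow_one]
      rw [e0]
      unfold H861.GL.kap
      have hr' : r = 1 ∨ r = 2 := by omega
      rcases hr' with rfl | rfl
      · have e1 : (q * 2 + 1) / 2 = q := by omega
        have e2 : (q * 2 + 1) % 2 = 1 := by omega
        rw [e1, e2, sum_range_succ, sum_range_succ, sum_range_zero, zero_add, pow_zero, pow_one,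
          pow_one]
      · have e1 : (q * 2 + 2) / 2 = q + 1 := by omega
        have e2 : (q * 2 + 2) % 2 = 0 := by omega
        rw [e1, e2, e0, pow_zero, mul_one, ← pow_succ]
    rw [e]
    have h1 := hmid rfl
    exact H861.GL.two_main (q * 2 + r) n K hH hMF j (Or.inl (by omega))

end Pool.Agent.Results.MP_94a3a7_co.MissingFacesAtMostTwo
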